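import Mathlib
import Pool.Agent.Y427.SC.GeoCore

/-!
FV-C5 (helper4's project on convex Schiffer domains): weak analyticity, the disc case; core lemmas
without the definitions of the project.
-/

set_option autoImplicit false

open Complex Metric Set Filter Topology ComplexConjugate

namespace Pool.Agent.E8helper69.FV

/-- half the derivative of `‖φ (e^{it}) - p‖ ^ 2` -/
noncomputable def GG (φ : ℂ → ℂ) (p : ℂ) (t : ℝ) : ℝ :=
  (conj (I * exp ((t : ℂ) * I) * deriv φ (exp ((t : ℂ) * I))) * (φ (exp ((t : ℂ) * I)) - p)).re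

theorem exp_mem_sphere (t : ℝ) : exp ((t : ℂ) * I) ∈ sphere (0 : ℂ) 1 := by
  simp [Complex.norm_exp_ofReal_mul_I]

theorem exp_mem_ball (r : ℝ) (hr : 1 < r) (t : ℝ) : exp ((t : ℂ) * I) ∈ ball (0 : ℂ) r := by
  rw [mem_ball_zero_iff, Complex.norm_exp_ofReal_mul_I]
  exact hr

theorem analyticAt_exp (t : ℝ) : AnalyticAt ℝ (fun t : ℝ => exp ((t : ℂ) * I)) t := by
  have h1 : AnalyticAt ℝ (fun t : ℝ => ((t : ℂ) * I)) t :=
    (Complex.ofRealCLM.analyticAt t).mul analyticAt_const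
  have h2 : AnalyticAt ℝ (fun z : ℂ => exp z) ((t : ℂ) * I) :=
    (analyticAt_cexp (z := (t : ℂ) * I)).restrictScalars
  exact AnalyticAt.fun_comp h2 h1

theorem analyticAt_comp (f : ℂ → ℂ) (r : ℝ) (hr : 1 < r) (hf : DifferentiableOn ℂ f (ball 0 r))
    (t : ℝ) : AnalyticAt ℝ (fun t : ℝ => f (exp ((t : ℂ) * I))) t := by
  have h1 : AnalyticAt ℂ f (exp ((t : ℂ) * I)) :=
    hf.analyticAt (isOpen_ball.mem_nhds (exp_mem_ball r hr t))
  have h2 : AnalyticAt ℝ f (exp ((t : ℂ) * I)) := h1.restrictScalars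
  exact AnalyticAt.fun_comp (f := fun t : ℝ => exp ((t : ℂ) * I)) h2 (analyticAt_exp t)

theorem analytic_GG (φ : ℂ → ℂ) (r : ℝ) (hr : 1 < r) (hφ : DifferentiableOn ℂ φ (ball 0 r))
    (p : ℂ) : AnalyticOnNhd ℝ (GG φ p) univ := by
  intro t _
  have hd : DifferentiableOn ℂ (deriv φ) (ball 0 r) := hφ.deriv isOpen_ball
  have h1 : AnalyticAt ℝ (fun t : ℝ => I * exp ((t : ℂ) * I) * deriv φ (exp ((t : ℂ) * I))) t :=
    (analyticAt_const.mul (analyticAt_exp t)).mul (analyticAt_comp _ r hr hd t)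
  have h2 : AnalyticAt ℝ (fun t : ℝ =>
      conj (I * exp ((t : ℂ) * I) * deriv φ (exp ((t : ℂ) * I)))) t :=
    AnalyticAt.fun_comp (g := fun z : ℂ => conj z)
      (Complex.conjCLE.toContinuousLinearMap.analyticAt _) h1
  have h3 : AnalyticAt ℝ (fun t : ℝ => φ (exp ((t : ℂ) * I)) - p) t :=
    (analyticAt_comp _ r hr hφ t).sub analyticAt_const
  exact AnalyticAt.fun_comp (g := fun z : ℂ => z.re) (Complex.reCLM.analyticAt _) (h2.mul h3)

/-- identity theorem -/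
theorem GG_zero (φ : ℂ → ℂ) (r : ℝ) (hr : 1 < r) (hφ : DifferentiableOn ℂ φ (ball 0 r))
    (p : ℂ) (a b : ℝ) (hab : a < b) (h : ∀ t ∈ Ioo a b, GG φ p t = 0) :
    ∀ t, GG φ p t = 0 := by
  have h0 : GG φ p =ᶠ[𝓝 ((a + b) / 2)] 0 := by
    filter_upwards [Ioo_mem_nhds (show a < (a + b) / 2 by linarith)
      (show (a + b) / 2 < b by linarith)] with t ht
    exact h t ht
  have := (analytic_GG φ r hr hφ p).eqOn_zero_of_preconnected_of_eventuallyEq_zero
    isPreconnected_univ (mem_univ _) h0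
  intro t
  exact this (mem_univ t)

theorem hasDerivAt_exp (t : ℝ) :
    HasDerivAt (fun t : ℝ => exp ((t : ℂ) * I)) (I * exp ((t : ℂ) * I)) t := by
  have h1 : HasDerivAt (fun t : ℝ => ((t : ℂ) * I)) I t := by
    simpa using (Complex.ofRealCLM.hasDerivAt (x := t)).mul_const I
  have := h1.cexp
  rwa [mul_comm] at this

theorem hasDerivAt_phi (φ : ℂ → ℂ) (r : ℝ) (hr : 1 < r) (hφ : DifferentiableOn ℂ φ (ball 0 r))
    (t : ℝ) : HasDerivAt (fun t : ℝ => φ (exp ((t : ℂ) * I)))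
      (I * exp ((t : ℂ) * I) * deriv φ (exp ((t : ℂ) * I))) t := by
  have h1 : HasDerivAt φ (deriv φ (exp ((t : ℂ) * I))) (exp ((t : ℂ) * I)) :=
    (hφ.differentiableAt (isOpen_ball.mem_nhds (exp_mem_ball r hr t))).hasDerivAt
  have := h1.comp_of_eq t (hasDerivAt_exp t) rfl
  rw [mul_comm]
  exact this

theorem normSq_const (φ : ℂ → ℂ) (r : ℝ) (hr : 1 < r) (hφ : DifferentiableOn ℂ φ (ball 0 r))
    (p : ℂ) (h : ∀ t, GG φ p t = 0) (t : ℝ) :
    normSq (φ (exp ((t : ℂ) * I)) - p) = normSq (φ 1 - p) := by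
  have hd : ∀ t : ℝ, HasDerivAt (fun t : ℝ => normSq (φ (exp ((t : ℂ) * I)) - p)) 0 t := by
    intro t
    have h1 := (hasDerivAt_phi φ r hr hφ t).sub_const p
    have hre := Complex.reCLM.hasFDerivAt.comp_hasDerivAt t h1
    have him := Complex.imCLM.hasFDerivAt.comp_hasDerivAt t h1
    have h2 := (hre.mul hre).add (him.mul him)
    have h3 := h t
    unfold GG at h3
    refine HasDerivAt.congr_deriv (f := fun t : ℝ => normSq (φ (exp ((t : ℂ) * I)) - p)) h2 ?_
    have e : (2 : ℝ) * (conj (I * exp ((t : ℂ) * I) * deriv φ (exp ((t : ℂ) * I))) *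
          (φ (exp ((t : ℂ) * I)) - p)).re = 0 := by rw [h3, mul_zero]
    refine Eq.trans ?_ e
    generalize I * exp ((t : ℂ) * I) * deriv φ (exp ((t : ℂ) * I)) = u
    simp only [Function.comp, reCLM_apply, imCLM_apply]
    generalize φ (exp ((t : ℂ) * I)) - p = v
    rw [mul_re, conj_re, conj_im]
    ring
  have hc := is_const_of_deriv_eq_zero (fun t => (hd t).differentiableAt) (fun t => (hd t).deriv)
    t 0
  simpa using hc

theorem disc (φ : ℂ → ℂ) (r : ℝ) (hr : 1 < r) (hφ : DifferentiableOn ℂ φ (ball 0 r))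
    (hinj : InjOn φ (ball 0 r)) (p : ℂ) (h : ∀ t, GG φ p t = 0) :
    ∃ (p : ℂ) (R : ℝ), 0 < R ∧ φ '' ball 0 1 = ball p R := by
  have hc := normSq_const φ r hr hφ p h
  have hK : normSq (φ 1 - p) ≠ 0 := by
    intro h0
    have e1 : φ 1 - p = 0 := normSq_eq_zero.mp h0
    have e2 : φ (exp ((Real.pi : ℂ) * I)) - p = 0 := normSq_eq_zero.mp ((hc Real.pi).trans h0)
    have e3 : φ 1 = φ (exp ((Real.pi : ℂ) * I)) := by
      rw [sub_eq_zero.mp e1, sub_eq_zero.mp e2]
    have m1 : (1 : ℂ) ∈ ball (0 : ℂ) r := by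
      have := exp_mem_ball r hr 0
      simpa using this
    have := hinj m1 (exp_mem_ball r hr Real.pi) e3
    rw [Complex.exp_pi_mul_I] at this
    norm_num at this
  refine Pool.Agent.Y427.SC.geo_core φ r ((normSq (φ 1 - p) : ℝ) : ℂ) (conj p) p hr hφ hinj
    (by exact_mod_cast hK) ?_
  intro w hw
  obtain ⟨t, rfl⟩ : ∃ t : ℝ, exp ((t : ℂ) * I) = w := by
    refine ⟨arg w, ?_⟩
    have hn : ‖w‖ = 1 := by simpa using hw
    have := Complex.norm_mul_exp_arg_mul_I w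
    rwa [hn, ofReal_one, one_mul] at this
  rw [← hc t, Complex.normSq_eq_conj_mul_self]
  simp

end Pool.Agent.E8helper69.FV
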