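import Pool.Agent.E8helper4.FV.Stm
import Pool.Agent.E8helper69.FV.C5core

/-!
FV-C5 (helper4's project on convex Schiffer domains): weak analyticity of `Re (e^{-is} z(s))` and
the disc case.
-/

set_option autoImplicit false

open Complex Metric Set Filter Topology ComplexConjugate
open Pool.Agent.E8helper4.FV

namespace Pool.Agent.E8helper69.FV

theorem relcore (D q : ℂ) (s A B : ℝ) (hD : D ≠ 0) (h : D = (‖D‖ : ℂ) * exp ((s : ℂ) * I)) :
    (exp (-((s : ℂ) * I)) * q).re = A * Real.cos s + B * Real.sin s ↔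
      (conj D * (q - (A + B * I))).re = 0 := by
  have h1 : conj D = (‖D‖ : ℂ) * exp (-((s : ℂ) * I)) := by
    conv_lhs => rw [h]
    rw [map_mul, conj_ofReal, ← exp_conj]
    congr 2
    simp
  have h2 : (exp (-((s : ℂ) * I)) * ((A : ℂ) + B * I)).re = A * Real.cos s + B * Real.sin s := by
    have : -((s : ℂ) * I) = ((-s : ℝ) : ℂ) * I := by push_cast; ring
    rw [this, mul_re, exp_ofReal_mul_I_re, exp_ofReal_mul_I_im, Real.cos_neg, Real.sin_neg]
    simp only [add_re, ofReal_re, mul_re, I_re, I_im, ofReal_im, add_im, mul_im]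
    ring
  rw [h1, mul_assoc, re_ofReal_mul, mul_sub, sub_re, h2, mul_eq_zero, sub_eq_zero]
  have : ‖D‖ ≠ 0 := norm_ne_zero_iff.mpr hD
  tauto
/-- the relation between the condition on `Re (e^{-is} z(s))` and `GG` -/
theorem rel (φ : ℂ → ℂ) (r : ℝ) (th T : ℝ → ℝ) (hr : 1 < r)
    (hφ : DifferentiableOn ℂ φ (ball 0 r)) (hinj : InjOn φ (ball 0 r)) (hA : Ang φ th T)
    (A B s : ℝ) :
    (exp (-((s : ℂ) * I)) * zz φ T s).re = A * Real.cos s + B * Real.sin s ↔
      GG φ (A + B * I) (T s) = 0 := by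
  have hd : deriv φ (exp ((T s : ℂ) * I)) ≠ 0 :=
    Pool.Agent.Y769.SC.nz φ r hφ hinj _ (exp_mem_ball r hr (T s))
  have hD : I * exp ((T s : ℂ) * I) * deriv φ (exp ((T s : ℂ) * I)) ≠ 0 :=
    mul_ne_zero (mul_ne_zero I_ne_zero (exp_ne_zero _)) hd
  have hn : ‖I * exp ((T s : ℂ) * I) * deriv φ (exp ((T s : ℂ) * I))‖ =
      ‖deriv φ (exp ((T s : ℂ) * I))‖ := by
    rw [norm_mul, norm_mul, norm_I, Complex.norm_exp_ofReal_mul_I, one_mul, one_mul]
  have ht := hA.tan (T s)
  rw [hA.thT, ← hn] at ht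
  exact relcore _ (zz φ T s) s A B hD ht

theorem main : C5 := by
  intro φ r th T hr hφ hinj hom hA
  refine ⟨fun A B c d hcd h s => ?_, fun A B h => ?_⟩
  · rw [rel φ r th T hr hφ hinj hA]
    refine GG_zero φ r hr hφ _ (T c) (T d) (hA.mT hcd) (fun t ht => ?_) _
    have h1 : th t ∈ Ioo c d := by
      constructor
      · rw [← hA.mT.lt_iff_lt, hA.Tth]
        exact ht.1
      · rw [← hA.mT.lt_iff_lt, hA.Tth]
        exact ht.2
    have := (rel φ r th T hr hφ hinj hA A B (th t)).mp (h _ h1)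
    rwa [hA.Tth] at this
  · refine disc φ r hr hφ hinj (A + B * I) (fun t => ?_)
    have := (rel φ r th T hr hφ hinj hA A B (th t)).mp (h _)
    rwa [hA.Tth] at this

end Pool.Agent.E8helper69.FV
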